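import Pool.Agent.X144.ClusLim

set_option autoImplicit false

/-!
# Locally dependent random graphs that are connected far below the Erdos-Renyi threshold

Full answer to Q1 of MP_b3d828_pr (the statement is disproved). The definitions `Pair` and `IsDepRG`
are in `Pool/Agent/X144/DepRG.lean`.
-/

namespace Pool.Agent.Results.MP_b3d828_pr.ConnectedBelowLog

open MeasureTheory Filter Topology Pool.Agent.X144.DepRG Pool.Agent.X144.Clus Pool.Agent.X144.Bits

/-- There are `p(n) = o(ln n / n)`, `d(n) = O(n / ln n)` and `d(n)`-dependent random graphs `G n` on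
`n` vertices with edge probability `p(n)` such that `G n` is connected with probability tending
to `1`. -/
theorem result : ∃ (p : ℕ → ℝ) (d : ℕ → ℕ),
    (fun n : ℕ => p n) =o[atTop] (fun n : ℕ => Real.log n / n) ∧
    (fun n : ℕ => (d n : ℝ)) =O[atTop] (fun n : ℕ => (n : ℝ) / Real.log n) ∧
    ∃ (Ω : ℕ → Type) (_ : ∀ n, MeasurableSpace (Ω n)) (μ : ∀ n, Measure (Ω n))
      (G : ∀ n, Ω n → SimpleGraph (Fin n)),
      (∀ n, IsProbabilityMeasure (μ n)) ∧
      (∀ n, IsDepRG (μ n) (G n) (p n) (d n)) ∧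
      Tendsto (fun n : ℕ => (μ n).real {ω | (G n ω).Connected}) atTop (𝓝 1) :=
  ⟨fun n => pp n, dd, pp_small, dd_big,
    fun n => (Sym2 (Fin n) ⊕ (Fin n × Fin (KK n))) → Bool, fun _ => inferInstance,
    fun n => BM _ (pp n), fun n => bitGraph (bb (KK n)) bb_symm,
    fun _ => inferInstance, fun n => bitGraph_isDep _ _ _ _ (fun e => deg_bound e), conn_lim⟩

end Pool.Agent.Results.MP_b3d828_pr.ConnectedBelowLog
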